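import Pool.Agent.Work.MP_db9399_sc.Interface

/-!
# MP_db9399, THEOREM SC, block DEP (helper31)
-/

set_option autoImplicit false

namespace Pool.Agent.Work.MP_db9399_sc.helper31

open Finset Classical
open Pool.Agent.Work.MP_db9399_all (nb)
open Pool.Agent.Work.MP_db9399_sc

universe u

variable {V : Type u} [Fintype V]

theorem typ_big {G F : SimpleGraph V} {d : ℕ} {U L C : Finset V} (hE : Env G F d U L)
    (hC : C ⊆ L) {v : V} (hv : Typ F d U C v) : 998 * d ≤ 1000 * (nb F v ∩ C).card := by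
  have h1 := hE.big v (hC hv.1)
  have h2 := hv.2
  have h3 : (nb F v ∩ U).card ≤ (nb F v ∩ (U \ C)).card + (nb F v ∩ C).card := by
    refine (card_le_card ?_).trans (card_union_le _ _)
    intro x hx
    simp only [mem_inter, mem_union, mem_sdiff] at *
    by_cases hxc : x ∈ C
    · exact Or.inr ⟨hx.1, hxc⟩
    · exact Or.inl ⟨hx.1, hx.2, hxc⟩
  omega

theorem untyp {F : SimpleGraph V} {d : ℕ} {U L C : Finset V} (_hd : 1 ≤ d)
    (hC : Crit F d U L C) : (C.filter (fun v => ¬ Typ F d U C v)).card ≤ 1400 := by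
  obtain ⟨h1, h2, h3⟩ := hC
  set B := C.filter (fun v => ¬ Typ F d U C v) with hB
  have hs : d * B.card ≤ 1000 * cut F U C := by
    unfold cut
    rw [Finset.mul_sum]
    calc d * B.card = ∑ v ∈ B, d := by rw [sum_const, smul_eq_mul, mul_comm]
      _ ≤ ∑ v ∈ B, 1000 * (nb F v ∩ (U \ C)).card := by
          refine sum_le_sum fun v hv => ?_
          rw [hB, mem_filter] at hv
          have : ¬ (1000 * (nb F v ∩ (U \ C)).card ≤ d) := fun h => hv.2 ⟨hv.1, h⟩
          omega
      _ ≤ ∑ v ∈ C, 1000 * (nb F v ∩ (U \ C)).card :=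
          sum_le_sum_of_subset (filter_subset _ _)
  by_contra hlt
  have h4 : d * 1401 ≤ d * B.card := Nat.mul_le_mul_left _ (by omega)
  omega

theorem dcount (F : SimpleGraph V) (A B : Finset V) :
    ∑ v ∈ A, (nb F v ∩ B).card = ∑ u ∈ B, (nb F u ∩ A).card := by
  have h : ∀ (v : V) (B : Finset V),
      (nb F v ∩ B).card = ∑ u ∈ B, if F.Adj v u then 1 else 0 := by
    intro v B
    rw [← Finset.sum_filter, Finset.sum_const, smul_eq_mul, mul_one]
    congr 1
    ext u
    simp [nb, and_comm]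
  simp_rw [h]
  rw [sum_comm]
  refine sum_congr rfl fun u _ => sum_congr rfl fun v _ => ?_
  simp [F.adj_comm]

theorem dep3 {G F : SimpleGraph V} {d : ℕ} {U L C : Finset V} (hd : 1 ≤ d)
    (hE : Env G F d U L) (hC : Crit F d U L C) (Y : Finset V) (y : ℝ)
    (hy : ∀ v, ((nb G v ∩ Y).card : ℝ) ≤ y) :
    (d : ℝ) * (C ∩ Y).card ≤ 11 / 10 * y * C.card + 1400 * d := by
  set T := (C ∩ Y).filter (fun v => Typ F d U C v) with hTdef
  have hT : (C ∩ Y).card ≤ T.card + 1400 := by
    have h0 := card_filter_add_card_filter_not (s := C ∩ Y) (fun v => Typ F d U C v)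
    rw [← hTdef] at h0
    have h1 := untyp hd hC
    have h2 : ((C ∩ Y).filter (fun v => ¬ Typ F d U C v)).card ≤
        (C.filter (fun v => ¬ Typ F d U C v)).card :=
      card_le_card (filter_subset_filter _ inter_subset_left)
    omega
  have h1 : 998 * d * T.card ≤ 1000 * ∑ v ∈ T, (nb F v ∩ C).card := by
    rw [Finset.mul_sum]
    calc 998 * d * T.card = ∑ v ∈ T, 998 * d := by rw [sum_const, smul_eq_mul, mul_comm]
      _ ≤ _ := by
          refine sum_le_sum fun v hv => ?_
          rw [hTdef, mem_filter] at hv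
          exact typ_big hE hC.1 hv.2
  have h2 : ((∑ v ∈ T, (nb F v ∩ C).card : ℕ) : ℝ) ≤ y * C.card := by
    rw [dcount]
    push_cast
    calc (∑ u ∈ C, ((nb F u ∩ T).card : ℝ)) ≤ ∑ u ∈ C, y := by
          refine sum_le_sum fun u _ => ?_
          refine le_trans ?_ (hy u)
          norm_cast
          refine card_le_card ?_
          intro x hx
          rw [hTdef] at hx
          simp only [mem_inter, mem_filter, nb, mem_univ, true_and] at hx ⊢
          exact ⟨hE.FG hx.1, hx.2.1.2⟩
      _ = y * C.card := by rw [sum_const, nsmul_eq_mul, mul_comm]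
  have h1' : (998 : ℝ) * d * T.card ≤ 1000 * ((∑ v ∈ T, (nb F v ∩ C).card : ℕ) : ℝ) := by
    exact_mod_cast h1
  have hT' : ((C ∩ Y).card : ℝ) ≤ T.card + 1400 := by exact_mod_cast hT
  have hd' : (0 : ℝ) ≤ d := Nat.cast_nonneg _
  have hyC : 0 ≤ y * C.card := by
    refine le_trans (Nat.cast_nonneg _) h2
  have h3 : (d : ℝ) * (C ∩ Y).card ≤ d * (T.card + 1400) := mul_le_mul_of_nonneg_left hT' hd'
  nlinarith

theorem round_one {G F : SimpleGraph V} {d : ℕ} {U L C : Finset V} (_hd : 1 ≤ d)
    (hE : Env G F d U L) (hC : Crit F d U L C) (O : Finset V) (hO : Spr G d O) :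
    d * ((O ∩ C).filter (fun v => Typ F d U C v)).card ≤ 3 * C.card := by
  obtain ⟨F', U', L', Cs, hF, hz, h2⟩ := hO
  set S := (O ∩ C).filter (fun v => Typ F d U C v) with hS
  set Ds := Cs.filter (fun C' => 996 * d ≤ 1000 * (C ∩ C').card) with hDs
  have hsub : S ⊆ Ds.biUnion (fun C' => O ∩ C') := by
    intro z hzS
    rw [hS, mem_filter, mem_inter] at hzS
    obtain ⟨C', hC', ht⟩ := hz z hzS.1.1
    rw [mem_biUnion]
    refine ⟨C', ?_, mem_inter.2 ⟨hzS.1.1, ht.1⟩⟩
    rw [hDs, mem_filter]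
    refine ⟨hC', ?_⟩
    have a1 := typ_big hE hC.1 hzS.2
    have a2 := typ_big hF.env (hF.crit C' hC').1 ht
    have a3 := hE.deg z
    -- inclusion-exclusion inside nb G z
    have a4 : (nb F z ∩ C).card + (nb F' z ∩ C').card ≤ (nb G z).card + (C ∩ C').card := by
      rw [← card_union_add_card_inter]
      refine add_le_add (card_le_card ?_) (card_le_card ?_)
      · intro x hx
        simp only [mem_union, mem_inter, nb, mem_filter, mem_univ, true_and] at hx ⊢
        rcases hx with hx | hx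
        · exact hE.FG hx.1
        · exact hF.env.FG hx.1
      · intro x hx
        simp only [mem_inter] at hx ⊢
        exact ⟨hx.1.2, hx.2.2⟩
    omega
  have hcard : S.card ≤ 2 * Ds.card := by
    calc S.card ≤ (Ds.biUnion (fun C' => O ∩ C')).card := card_le_card hsub
      _ ≤ ∑ C' ∈ Ds, (O ∩ C').card := card_biUnion_le
      _ ≤ ∑ C' ∈ Ds, 2 := by
          refine sum_le_sum fun C' hC' => h2 C' ?_
          rw [hDs, mem_filter] at hC'
          exact hC'.1
      _ = 2 * Ds.card := by rw [sum_const, smul_eq_mul, mul_comm]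
  have hdis : ∑ C' ∈ Ds, (C ∩ C').card ≤ C.card := by
    rw [← card_biUnion]
    · refine card_le_card ?_
      intro x hx
      rw [mem_biUnion] at hx
      obtain ⟨C', _, hx⟩ := hx
      exact (mem_inter.1 hx).1
    · intro C1 h1 C2 h2' hne
      rw [hDs] at h1 h2'
      have h1' := (mem_filter.1 h1).1
      have h2'' := (mem_filter.1 h2').1
      have := hF.dis C1 h1' C2 h2'' hne
      exact Disjoint.mono inter_subset_right inter_subset_right this
  have hlow : 996 * d * Ds.card ≤ 1000 * ∑ C' ∈ Ds, (C ∩ C').card := by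
    rw [Finset.mul_sum]
    calc 996 * d * Ds.card = ∑ C' ∈ Ds, 996 * d := by rw [sum_const, smul_eq_mul, mul_comm]
      _ ≤ _ := by
          refine sum_le_sum fun C' hC' => ?_
          rw [hDs, mem_filter] at hC'
          exact hC'.2
  have h5 : d * S.card ≤ d * (2 * Ds.card) := Nat.mul_le_mul_left _ hcard
  have h6 : 996 * (d * Ds.card) ≤ 1000 * C.card := by
    calc 996 * (d * Ds.card) = 996 * d * Ds.card := by ring
      _ ≤ _ := hlow
      _ ≤ _ := Nat.mul_le_mul_left _ hdis
  have h7 : d * (2 * Ds.card) = 2 * (d * Ds.card) := by ring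
  omega

theorem rounds {G F : SimpleGraph V} {d : ℕ} {U L C : Finset V} (hd : 1 ≤ d)
    (hE : Env G F d U L) (hC : Crit F d U L C) {ι : Type} (I : Finset ι) (O : ι → Finset V)
    (hO : ∀ i ∈ I, Spr G d (O i)) :
    d * (I.biUnion O ∩ C).card ≤ 3 * I.card * C.card + 1400 * d := by
  have hsub : I.biUnion O ∩ C ⊆
      I.biUnion (fun i => (O i ∩ C).filter (fun v => Typ F d U C v)) ∪
        C.filter (fun v => ¬ Typ F d U C v) := by
    intro x hx
    rw [mem_inter, mem_biUnion] at hx
    obtain ⟨⟨i, hi, hxi⟩, hxC⟩ := hx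
    rw [mem_union, mem_biUnion, mem_filter]
    by_cases ht : Typ F d U C x
    · left
      exact ⟨i, hi, mem_filter.2 ⟨mem_inter.2 ⟨hxi, hxC⟩, ht⟩⟩
    · right
      exact ⟨hxC, ht⟩
  have h1 : (I.biUnion O ∩ C).card ≤
      ∑ i ∈ I, ((O i ∩ C).filter (fun v => Typ F d U C v)).card + 1400 :=
    (card_le_card hsub).trans ((card_union_le _ _).trans
      (add_le_add card_biUnion_le (untyp hd hC)))
  have h2 : d * ∑ i ∈ I, ((O i ∩ C).filter (fun v => Typ F d U C v)).card ≤
      3 * I.card * C.card := by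
    rw [Finset.mul_sum]
    calc _ ≤ ∑ i ∈ I, 3 * C.card := sum_le_sum fun i hi => round_one hd hE hC (O i) (hO i hi)
      _ = 3 * I.card * C.card := by rw [sum_const, smul_eq_mul]; ring
  calc d * (I.biUnion O ∩ C).card
      ≤ d * (∑ i ∈ I, ((O i ∩ C).filter (fun v => Typ F d U C v)).card + 1400) :=
        Nat.mul_le_mul_left _ h1
    _ = d * ∑ i ∈ I, ((O i ∩ C).filter (fun v => Typ F d U C v)).card + 1400 * d := by ring
    _ ≤ _ := Nat.add_le_add_right h2 _

theorem stmt_DEP : Stmt_DEP.{u} := by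
  refine ⟨3000, ?_⟩
  intro V _ G F d U L C hd hE hC
  have hd1 : 1 ≤ d := by omega
  refine ⟨untyp hd1 hC, ?_, fun Y y hy => dep3 hd1 hE hC Y y hy, ?_, ?_⟩
  · intro O hO
    have h := rounds hd1 hE hC (ι := Unit) {()} (fun _ => O) (fun _ _ => hO)
    simpa using h
  · -- a typical vertex
    have h1 := untyp hd1 hC
    have h2 := hC.2.1
    have h0 := card_filter_add_card_filter_not (s := C) (fun v => Typ F d U C v)
    have h3 : 0 < (C.filter (fun v => Typ F d U C v)).card := by omega
    obtain ⟨v, hv⟩ := card_pos.1 h3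
    have h4 := typ_big hE hC.1 (mem_filter.1 hv).2
    have h5 : (nb F v ∩ C).card ≤ C.card := card_le_card inter_subset_right
    omega
  · intro ι I O hO _
    exact rounds hd1 hE hC I O hO

end Pool.Agent.Work.MP_db9399_sc.helper31
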